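import Pool.Agent.Y462.EI.Stm

/-!
# Representation of an amalgamated product in a wreath product

Project EI (owner helper462).
-/

set_option autoImplicit false
set_option linter.unusedVariables false

open Classical

namespace Pool.Agent.Y474.EI

open Pool.Agent.Y462.SS (Wr)
open Pool.Agent.Y462.PA (Am)
open Pool.Agent.Y462.EI

/-! ### The monomial representation -/

section mon

variable {K D : Type} [Group K] [Group D] (w : K →* D)

/-- representatives of the cosets -/
noncomputable def sc (x : D ⧸ w.range) : D := if x = ((1 : D) : D ⧸ w.range) then 1 else x.out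

theorem sc_one : sc w ((1 : D) : D ⧸ w.range) = 1 := if_pos rfl

theorem sc_mk (x : D ⧸ w.range) : ((sc w x : D) : D ⧸ w.range) = x := by
  unfold sc
  split_ifs with h
  · exact h.symm
  · exact QuotientGroup.out_eq' x

theorem exists_k (d : D) (x : D ⧸ w.range) : ∃ k : K, w k = (sc w (d • x))⁻¹ * (d * sc w x) := by
  have h : ((sc w (d • x) : D) : D ⧸ w.range) = ((d * sc w x : D) : D ⧸ w.range) := by
    rw [sc_mk]
    conv_lhs => rw [← sc_mk w x]
    rfl
  exact QuotientGroup.eq.1 h

/-- the sections -/
noncomputable def kk (d : D) (x : D ⧸ w.range) : K := (exists_k w d x).choose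

theorem kk_spec (d : D) (x : D ⧸ w.range) : w (kk w d x) = (sc w (d • x))⁻¹ * (d * sc w x) :=
  (exists_k w d x).choose_spec

theorem t_mon : S_MON := by
  intro K D _ _ w hw
  refine ⟨{ toFun := fun d => ⟨fun x => kk w d x, MulAction.toPerm d⟩
            map_one' := ?_
            map_mul' := ?_ }, ?_, ?_⟩
  · refine Wr.ext (funext fun x => hw ?_) (Equiv.ext fun x => ?_)
    · change w (kk w 1 x) = w 1
      rw [kk_spec, one_smul, one_mul, inv_mul_cancel, map_one]
    · exact one_smul D x
  · intro d d'
    refine Wr.ext (funext fun x => hw ?_) (Equiv.ext fun x => ?_)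
    · change w (kk w (d * d') x) = w (kk w d (d' • x) * kk w d' x)
      rw [map_mul, kk_spec, kk_spec, kk_spec, mul_smul]
      group
    · exact mul_smul d d' x
  · intro d x
    rfl
  · intro c
    apply hw
    change w (kk w (w c) ((1 : D) : D ⧸ w.range)) = w c
    have h1 : w c • ((1 : D) : D ⧸ w.range) = ((1 : D) : D ⧸ w.range) := by
      change ((w c * 1 : D) : D ⧸ w.range) = _
      rw [mul_one]
      refine QuotientGroup.eq.2 ?_
      rw [mul_one]
      exact inv_mem ⟨c, rfl⟩
    rw [kk_spec, h1, sc_one, inv_one, one_mul, mul_one]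

end mon

/-! ### Operations on wreath products -/

section ops

variable {X J I K A : Type} [Group K] [Group A]

/-- a homomorphism on the sections -/
def mp (φ : K →* A) : Wr X K →* Wr X A where
  toFun a := ⟨fun x => φ (a.s x), a.p⟩
  map_one' := Wr.ext (funext fun x => map_one φ) rfl
  map_mul' a b := Wr.ext (funext fun x => map_mul φ _ _) rfl

/-- countably many copies -/
def stab : Wr X A →* Wr (X × ℕ) A where
  toFun a := ⟨fun x => a.s x.1, Equiv.prodCongr a.p (Equiv.refl ℕ)⟩
  map_one' := Wr.ext rfl (Equiv.ext fun x => rfl)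
  map_mul' a b := Wr.ext rfl (Equiv.ext fun x => rfl)

/-- one more fixed point -/
def opt : A × Wr J A →* Wr (Option J) A where
  toFun a := ⟨fun i => i.elim a.1 a.2.s, Equiv.optionCongr a.2.p⟩
  map_one' := by
    refine Wr.ext (funext fun i => ?_) (Equiv.ext fun i => ?_)
    · cases i <;> rfl
    · cases i <;> rfl
  map_mul' a b := by
    refine Wr.ext (funext fun i => ?_) (Equiv.ext fun i => ?_)
    · cases i <;> rfl
    · cases i <;> rfl

/-- reindexing -/
def rei (e : I ≃ J) : Wr J A →* Wr I A where
  toFun a := ⟨fun i => a.s (e i), e.trans (a.p.trans e.symm)⟩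
  map_one' := Wr.ext rfl (Equiv.ext fun x => e.symm_apply_apply x)
  map_mul' a b := by
    refine Wr.ext (funext fun x => ?_) (Equiv.ext fun x => ?_)
    · change a.s (b.p (e x)) * b.s (e x) = a.s (e (e.symm (b.p (e x)))) * b.s (e x)
      rw [e.apply_symm_apply]
    · change e.symm (a.p (b.p (e x))) = e.symm (a.p (e (e.symm (b.p (e x)))))
      rw [e.apply_symm_apply]

/-- the shift of one orbit -/
noncomputable def lam {Q : Type} (o : Q) : Option (Q × ℕ) ≃ Q × ℕ where
  toFun i := match i with
    | none => (o, 0)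
    | some (x, n) => if x = o then (o, n + 1) else (x, n)
  invFun y := if y.1 = o then (match y.2 with | 0 => none | n + 1 => some (o, n)) else some y
  left_inv := by
    rintro (_ | ⟨x, n⟩)
    · simp
    · by_cases h : x = o
      · subst h
        simp
      · simp [h]
  right_inv := by
    rintro ⟨x, n⟩
    by_cases h : x = o
    · subst h
      cases n <;> simp
    · simp [h]

theorem lam_none {Q : Type} (o : Q) : lam o none = (o, 0) := rfl

theorem lam_pos {Q : Type} (o : Q) (n : ℕ) : lam o (some (o, n)) = (o, n + 1) := if_pos rfl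

theorem lam_neg {Q : Type} {o x : Q} (h : x ≠ o) (n : ℕ) : lam o (some (x, n)) = (x, n) :=
  if_neg h

end ops

theorem t_ha : S_HA := by
  intro K A B D _ _ _ _ α β u v huv hinj
  obtain ⟨m, hm, hm1⟩ := t_mon K D (u.comp α) hinj
  obtain ⟨Q, hQ⟩ : ∃ Q : Type, Q = (D ⧸ (u.comp α).range) := ⟨_, rfl⟩
  have hfix : ∀ c : K, (u (α c)) • ((1 : D) : D ⧸ (u.comp α).range) =
      ((1 : D) : D ⧸ (u.comp α).range) := by
    intro c
    change ((u (α c) * 1 : D) : D ⧸ (u.comp α).range) = _
    rw [mul_one]
    refine QuotientGroup.eq.2 ?_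
    rw [mul_one]
    exact inv_mem ⟨c, rfl⟩
  have hsec : ∀ c : K, (mp α (m (u (α c)))).s ((1 : D) : D ⧸ (u.comp α).range) = α c :=
    fun c => congrArg α (hm1 c)
  set hA : A →* Wr (Option ((D ⧸ (u.comp α).range) × ℕ)) A :=
    opt.comp ((MonoidHom.id A).prod (stab.comp ((mp α).comp (m.comp u)))) with hhA
  set hB : B →* Wr (Option ((D ⧸ (u.comp α).range) × ℕ)) A :=
    (rei (lam ((1 : D) : D ⧸ (u.comp α).range))).comp
      (stab.comp ((mp α).comp (m.comp v))) with hhB
  have key : ∀ c : K, hA (α c) = hB (β c) := by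
    intro c
    have e1 : hA (α c) = opt (α c, stab (mp α (m (u (α c))))) := rfl
    have e2 : hB (β c) = rei (lam ((1 : D) : D ⧸ (u.comp α).range))
        (stab (mp α (m (u (α c))))) := by
      rw [huv]
      rfl
    rw [e1, e2]
    refine Wr.ext (funext fun i => ?_) (Equiv.ext fun i => ?_)
    · rcases i with _ | ⟨x, n⟩
      · change α c = (mp α (m (u (α c)))).s ((1 : D) : D ⧸ (u.comp α).range)
        rw [hsec]
      · change (mp α (m (u (α c)))).s x =
          (mp α (m (u (α c)))).s (lam ((1 : D) : D ⧸ (u.comp α).range) (some (x, n))).1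
        by_cases h : x = ((1 : D) : D ⧸ (u.comp α).range)
        · rw [h, lam_pos]
        · rw [lam_neg h]
    · rcases i with _ | ⟨x, n⟩
      · change none = (lam ((1 : D) : D ⧸ (u.comp α).range)).symm
          ((m (u (α c))).p ((1 : D) : D ⧸ (u.comp α).range), 0)
        rw [eq_comm, Equiv.symm_apply_eq, lam_none, hm, hfix]
      · change some ((m (u (α c))).p x, n) = (lam ((1 : D) : D ⧸ (u.comp α).range)).symm
          ((m (u (α c))).p (lam ((1 : D) : D ⧸ (u.comp α).range) (some (x, n))).1,
            (lam ((1 : D) : D ⧸ (u.comp α).range) (some (x, n))).2)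
        rw [eq_comm, Equiv.symm_apply_eq]
        by_cases h : x = ((1 : D) : D ⧸ (u.comp α).range)
        · rw [h, lam_pos, hm, hfix, lam_pos]
        · have h2 : (m (u (α c))).p x ≠ ((1 : D) : D ⧸ (u.comp α).range) := by
            rw [hm]
            intro h3
            apply h
            rw [← hfix c] at h3
            exact smul_left_cancel _ h3
          rw [lam_neg h, lam_neg h2]
  refine ⟨_, Am.lift α β hA hB key, ?_, ?_, ?_⟩
  · intro a ha
    rw [Am.lift_inl] at ha
    have h1 := congrArg (fun y : Wr (Option ((D ⧸ (u.comp α).range) × ℕ)) A => y.s none) ha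
    exact h1
  · intro a ha
    rw [Am.lift_inl]
    have e1 : hA a = opt (a, 1) := by
      have e2 : hA a = opt (a, stab (mp α (m (u a)))) := rfl
      rw [e2, ha, map_one, map_one, map_one]
    rw [e1]
    constructor
    · refine Equiv.ext fun i => ?_
      cases i <;> rfl
    · refine (Set.finite_singleton none).subset fun i hi => ?_
      rcases i with _ | i
      · rfl
      · exact absurd rfl hi
  · intro b hb
    rw [Am.lift_inr]
    have e2 : hB b = rei (lam ((1 : D) : D ⧸ (u.comp α).range)) (stab (mp α (m (v b)))) := rfl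
    rw [e2, hb, map_one, map_one, map_one, map_one]

end Pool.Agent.Y474.EI
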